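import Mathlib
import Pool.Agent.Lib.MP_4a6af7_co.Blk.Cut

set_option autoImplicit false

namespace Pool.Agent.Results.MP_4a6af7_co.Blocks

open Pool.Agent.Lib.MP_4a6af7_co

/-- `n` matchings with at least `n` edges each, whose edges lie in a simple graph `G` (the same edge
of `G` may occur in many matchings), have a rainbow matching of size `n` if every cycle of `G` of
length at most `3 n - 2` is odd or longer than `2 n` and is a block of `G`: no two different
vertices of the cycle are joined by a walk that avoids the edges of the cycle. -/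
theorem result (V : Type) (G : SimpleGraph V) (n : ℕ) (M : Fin n → Finset (Sym2 V))
    (hE : ∀ i, ∀ e ∈ M i, e ∈ G.edgeSet)
    (hM : ∀ i, ∀ e ∈ M i, ∀ f ∈ M i, e ≠ f → ∀ v, v ∈ e → v ∉ f)
    (hn : ∀ i, n ≤ (M i).card)
    (hG : ∀ (u : V) (c : G.Walk u u), c.IsCycle → c.length + 2 ≤ 3 * n →
      (Odd c.length ∨ 2 * n < c.length) ∧ ∀ x ∈ c.support, ∀ y ∈ c.support,
        (G.deleteEdges {e | e ∈ c.edges}).Reachable x y → x = y) :
    ∃ e : Fin n → Sym2 V, (∀ i, e i ∈ M i) ∧ ∀ i j, i ≠ j → ∀ v, v ∈ e i → v ∉ e j := by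
  classical
  by_cases h : n ≤ 1
  · choose e he using fun i : Fin n =>
      Finset.card_pos.mp (lt_of_lt_of_le (lt_of_le_of_lt (Nat.zero_le _) i.2) (hn i))
    exact ⟨e, he, fun i j hij => absurd (Fin.ext (by omega)) hij⟩
  obtain ⟨e₀, -⟩ := Finset.card_pos.mp (lt_of_lt_of_le (by omega) (hn ⟨0, by omega⟩))
  have : Nonempty (Sym2 V) := ⟨e₀⟩
  obtain ⟨e, e1, e2⟩ := Blk.perf G (by omega) hG (Finset.univ.biUnion M)
    (fun e he => let ⟨i, _, hi⟩ := Finset.mem_biUnion.mp he; hE i e hi) Finset.univ M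
    fun j _ => ⟨hM j, by
      rw [Finset.inter_eq_left.mpr (Finset.subset_biUnion_of_mem M (Finset.mem_univ j))]
      simpa using hn j⟩
  exact ⟨e, fun i => (Finset.mem_inter.mp (e1 i (Finset.mem_univ i))).1,
    fun i j => e2 i (Finset.mem_univ i) j (Finset.mem_univ j)⟩

end Pool.Agent.Results.MP_4a6af7_co.Blocks
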