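import Mathlib
import Pool.Agent.Lib.MP_4a6af7_co.Thr.Main
import Pool.Agent.Lib.MP_4a6af7_co.Thr.Cls
import Pool.Agent.Lib.MP_4a6af7_co.Thr.Sharp

set_option autoImplicit false

namespace Pool.Agent.Results.MP_4a6af7_co.ExactThreshold

open Pool.Agent.Lib.MP_4a6af7_co.Thr

/-- The exact threshold for families of matchings whose edges lie in a simple graph (the same edge
of the graph may occur in many matchings) whose short cycles are whole components. For all `n` and
`k` the following are equivalent: (1) if every vertex on a cycle of length at most `3 n - 2` has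
degree at most two, any `n` matchings with at least `n` edges, at least `k` of them with at least
`n + 1` edges, have a rainbow matching of size `n`; (2) the same for bipartite graphs of maximum
degree at most two when exactly `k` matchings have `n + 1` edges and the others have `n` edges;
(3) `k` is at least the integer part of `n / 2`. -/
theorem result (n k : ℕ) : List.TFAE
    [∀ (V : Type) (G : SimpleGraph V),
      (∀ v (c : G.Walk v v), c.IsCycle → c.length + 2 ≤ 3 * n → (G.neighborSet v).encard ≤ 2) →
      ∀ M : Fin n → Finset (Sym2 V), (∀ i, ∀ e ∈ M i, e ∈ G.edgeSet) →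
        (∀ i, ∀ e ∈ M i, ∀ f ∈ M i, e ≠ f → ∀ v, v ∈ e → v ∉ f) →
        (∀ i, n ≤ (M i).card) → k ≤ {i | n + 1 ≤ (M i).card}.ncard →
        ∃ e : Fin n → Sym2 V, (∀ i, e i ∈ M i) ∧ ∀ i j, i ≠ j → ∀ v, v ∈ e i → v ∉ e j,
    ∀ (V : Type) (G : SimpleGraph V), G.IsBipartite → (∀ v, (G.neighborSet v).encard ≤ 2) →
      ∀ M : Fin n → Finset (Sym2 V), (∀ i, ∀ e ∈ M i, e ∈ G.edgeSet) →
        (∀ i, ∀ e ∈ M i, ∀ f ∈ M i, e ≠ f → ∀ v, v ∈ e → v ∉ f) →
        (∀ i, (M i).card = n ∨ (M i).card = n + 1) → {i | (M i).card = n + 1}.ncard = k →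
        ∃ e : Fin n → Sym2 V, (∀ i, e i ∈ M i) ∧ ∀ i j, i ≠ j → ∀ v, v ∈ e i → v ∉ e j,
    n / 2 ≤ k] := by
  classical
  tfae_have 1 → 2 := fun h V G _ hG M hE hM hn hk =>
    h V G (fun v _ _ _ => hG v) M hE hM (fun i => by have := hn i; omega)
      (hk ▸ Set.ncard_le_ncard fun i (hi : (M i).card = n + 1) => hi.ge)
  tfae_have 2 → 3 := fun h => by
    by_contra hlt
    obtain ⟨b, hb⟩ : ∃ b, n = b + 2 + k := ⟨n - 2 - k, by omega⟩
    obtain ⟨e, e1, e2⟩ := h _ (gr (b := b) (k := k)) gr_col gr_deg (fun i => row i.val)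
      (fun i => row_edge i.val) (fun i => row_mat i.val)
      (fun i => by rw [row_card]; split_ifs <;> omega) (by
        have : {i : Fin n | (row (b := b) (k := k) i.val).card = n + 1} =
            ↑(Finset.univ.filter fun i : Fin n => i.val < k) := by
          ext i
          simp only [Set.mem_ofPred_eq, row_card, Finset.coe_filter, Finset.mem_univ, true_and]
          split_ifs with c
          · exact iff_of_true (by omega) c
          · exact iff_of_false (by omega) c
        rw [this, Set.ncard_coe_finset, Fin.card_filter_val_lt]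
        omega)
    exact no_rainbow (by omega) hb e e1 e2
  tfae_have 3 → 1 := fun h V G hG M hE hM hn hk => by
    by_cases h0 : n ≤ 1
    · choose e he using fun i : Fin n =>
        Finset.card_pos.mp (lt_of_lt_of_le (lt_of_le_of_lt (Nat.zero_le _) i.2) (hn i))
      exact ⟨e, he, fun i j hij => absurd (Fin.ext (by omega)) hij⟩
    have : Nonempty (Sym2 V) :=
      ⟨(Finset.card_pos.mp (lt_of_lt_of_le (by omega) (hn ⟨0, by omega⟩))).choose⟩
    have hE' : ∀ e ∈ Finset.univ.biUnion M, e ∈ G.edgeSet := fun e he =>
      let ⟨i, _, h⟩ := Finset.mem_biUnion.mp he; hE i e h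
    obtain ⟨e, e1, e2⟩ := thr (cls G (by omega) hG hE')
      (fun e he => G.not_isDiag_of_mem_edgeSet (hE' e he))
      (Finset.univ.filter fun i => ¬ n + 1 ≤ (M i).card) n Finset.univ M (by simp)
      (fun j _ => ⟨Finset.subset_biUnion_of_mem M (Finset.mem_univ j), hM j, by simpa using hn j,
        fun a => by simpa using a⟩) (by
        have a1 := Finset.card_filter_add_card_filter_not (s := Finset.univ)
          fun i => n + 1 ≤ (M i).card
        have a2 : {i | n + 1 ≤ (M i).card} =
            ↑(Finset.univ.filter fun i => n + 1 ≤ (M i).card) := by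
          ext i
          simp
        rw [a2, Set.ncard_coe_finset] at hk
        rw [Finset.card_univ, Fintype.card_fin] at a1
        rw [Finset.univ_inter]
        omega)
    exact ⟨e, fun i => e1 i (Finset.mem_univ _),
      fun i j => e2 i (Finset.mem_univ _) j (Finset.mem_univ _)⟩
  tfae_finish

end Pool.Agent.Results.MP_4a6af7_co.ExactThreshold
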