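import Mathlib
import Pool.Agent.Lib.MP_4a6af7_co.Simple.Main

/-! Edge-disjoint matchings: two matchings of size n+1 already force a full rainbow matching. -/

set_option autoImplicit false

namespace Pool.Agent.Results.MP_4a6af7_co.SimpleGraph

open Pool.Agent.Lib.MP_4a6af7_co.Simple Finset Sum

lemma ofRel {V C : Type} (H : C → V → V → Prop) (lf : V → Prop)
    (h1 : ∀ c u v, H c u v → H c v u) (h2 : ∀ c u v, H c u v → (lf u ↔ ¬ lf v))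
    (h3 : ∀ c u v w, H c u v → H c u w → v = w) (h4 : ∀ c c' u v, H c u v → H c' u v → c = c') :
    ∃ G : Gr V C, G.lf = lf ∧ (∀ e, G.cel e → H e.1 e.2 (G.lab e)) ∧
      ∀ c u v, H c u v → G.cel (c, u) := by
  classical
  let lab : C × V → V := fun e => if h : ∃ v, H e.1 e.2 v then h.choose else e.2
  have k : ∀ e : C × V, (∃ v, H e.1 e.2 v) → H e.1 e.2 (lab e) := fun e h => by
    simp only [lab, dif_pos h]; exact h.choose_spec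
  exact ⟨⟨fun e => ∃ v, H e.1 e.2 v, lab, lf, fun e h => ⟨⟨_, h1 _ _ _ (k e h)⟩,
    h3 _ _ _ _ (k (e.1, lab e) ⟨_, h1 _ _ _ (k e h)⟩) (h1 _ _ _ (k e h))⟩,
    fun e h => h2 _ _ _ (k e h), fun e f he hf a b =>
      Prod.ext (h4 _ _ _ _ (k e he) (a ▸ b ▸ k f hf)) a⟩, rfl, k, fun c u v h => ⟨v, h⟩⟩

theorem result : ∃ n0 : ℕ, ∀ n : ℕ, n0 ≤ n → ∀ M : Fin n → Finset (ℕ × ℕ),
    (∀ i, ∀ e ∈ M i, ∀ f ∈ M i, e ≠ f → e.1 ≠ f.1 ∧ e.2 ≠ f.2) →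
    (∀ i j, i ≠ j → Disjoint (M i) (M j)) →
    (∀ i, n ≤ (M i).card) →
    (∃ i j, i ≠ j ∧ n + 1 ≤ (M i).card ∧ n + 1 ≤ (M j).card) →
    ∃ e : Fin n → ℕ × ℕ, (∀ i, e i ∈ M i) ∧
      Function.Injective (fun i => (e i).1) ∧ Function.Injective (fun i => (e i).2) := by
  obtain ⟨n0, h⟩ := Gr.main
  refine ⟨n0, fun n hn M h1 h2 h3 ⟨i, j, h4, h5, h6⟩ => ?_⟩
  obtain ⟨N, hN⟩ : ∃ N, ∀ c, ∀ e ∈ M c, e.1 < N ∧ e.2 < N := by
    refine ⟨(univ.biUnion M).sup (fun e => e.1 + e.2) + 1, fun c e he => ?_⟩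
    have := le_sup (f := fun e : ℕ × ℕ => e.1 + e.2) (mem_biUnion.2 ⟨c, mem_univ _, he⟩)
    omega
  have m1 : ∀ c a b b', (a, b) ∈ M c → (a, b') ∈ M c → b = b' := fun c a b b' x y =>
    by_contra fun hb => (h1 c _ x _ y fun e => hb (Prod.ext_iff.1 e).2).1 rfl
  have m2 : ∀ c a a' b, (a, b) ∈ M c → (a', b) ∈ M c → a = a' := fun c a a' b x y =>
    by_contra fun hb => (h1 c _ x _ y fun e => hb (Prod.ext_iff.1 e).1).2 rfl
  have m3 : ∀ c c' e, e ∈ M c → e ∈ M c' → c = c' := fun c c' e x y =>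
    by_contra fun hc => disjoint_left.1 (h2 c c' hc) x y
  obtain ⟨G, g1, g2, g3⟩ := ofRel (V := Fin N ⊕ Fin N) (fun c u v => ∃ a b : Fin N,
      (a.1, b.1) ∈ M c ∧ (u = inl a ∧ v = inr b ∨ u = inr b ∧ v = inl a)) (fun u => u.isLeft)
    (fun c u v ⟨a, b, x, y⟩ => ⟨a, b, x, by tauto⟩)
    (by rintro c u v ⟨a, b, x, ⟨rfl, rfl⟩ | ⟨rfl, rfl⟩⟩ <;> simp)
    (by
      rintro c u v w ⟨a, b, x, ⟨rfl, rfl⟩ | ⟨rfl, rfl⟩⟩ ⟨a', b', x', ⟨y, rfl⟩ | ⟨y, rfl⟩⟩ <;> cases y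
      · rw [Fin.ext (m1 c _ _ _ x x')]
      · rw [Fin.ext (m2 c _ _ _ x x')])
    (by
      rintro c c' u v ⟨a, b, x, ⟨rfl, rfl⟩ | ⟨rfl, rfl⟩⟩ ⟨a', b', x', ⟨y, z⟩ | ⟨y, z⟩⟩ <;>
        cases y <;> cases z <;> exact m3 _ _ _ x x')
  have k : ∀ c, (M c).card ≤ (G.E c).card := fun c => by
    rw [← card_attach]
    refine card_le_card_of_injOn (fun e => inl ⟨e.1.1, (hN c _ e.2).1⟩) (fun e _ => ?_)
      fun e _ f _ h => ?_
    · exact G.mem_E.2 ⟨by simp [g1], g3 _ _ _ ⟨_, ⟨e.1.2, (hN c _ e.2).2⟩, e.2, Or.inl ⟨rfl, rfl⟩⟩⟩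
    · exact Subtype.ext (by_contra fun hne => (h1 c _ e.2 _ f.2 hne).1 (by simpa using h))
  obtain ⟨Q, q1, q2, q3⟩ := h _ (Fin n) G (by simpa using hn)
    ⟨fun c => by simpa using (h3 c).trans (k c), i, j, h4, by simpa using h5.trans (k i),
      by simpa using h6.trans (k j)⟩
  choose f f1 f2 using fun c => mem_image.1 (q2 (mem_univ c))
  choose a b e1 e2 using fun c => g2 _ (q1 _ (f1 c)).1
  have q4 : ∀ c c', c ≠ c' → a c ≠ a c' ∧ b c ≠ b c' := fun c c' hc => by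
    have hne : f c ≠ f c' := fun e => hc (by rw [← f2 c, e, f2])
    obtain ⟨x1, x2, x3⟩ := q3 _ (f1 c) _ (f1 c') hne
    have x4 := (q3 _ (f1 c') _ (f1 c) hne.symm).2.1
    rcases e2 c with ⟨y, z⟩ | ⟨y, z⟩ <;> rcases e2 c' with ⟨y', z'⟩ | ⟨y', z'⟩ <;>
      simp only [y, y', z, z', ne_eq, inl.injEq, inr.injEq] at x1 x2 x3 x4 <;> tauto
  exact ⟨fun c => (a c, b c), fun c => by simpa only [f2] using e1 c,
    fun c c' e => by_contra fun hc => (q4 c c' hc).1 (Fin.ext e),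
    fun c c' e => by_contra fun hc => (q4 c c' hc).2 (Fin.ext e)⟩

end Pool.Agent.Results.MP_4a6af7_co.SimpleGraph
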